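import Pool.Agent.H77.WC.Stm

/-! Crew WC, parts DBS and PER. -/

set_option autoImplicit false

namespace Pool.Agent.H39.WC

open Filter Topology Set MeasureTheory Pool.Agent.H77.WC
open scoped BigOperators

/-- PER -/
theorem per' : S_PER := by
  intro p t hp ht
  have hp1 : (1 : ℝ) < p := by exact_mod_cast hp.one_lt
  have hp0 : (0 : ℝ) < p := by linarith
  have hl : 0 < Real.log p := Real.log_pos hp1
  have ht0 : 0 ≤ t := hl.le.trans ht
  set u : ℝ := t / Real.log p with hu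
  have htu : t = u * Real.log p := by rw [hu]; field_simp
  have hu1 : 1 ≤ u := by rw [hu, le_div_iff₀ hl]; linarith
  have hexp : Real.exp t = (p : ℝ) ^ u := by
    rw [htu, Real.rpow_def_of_pos hp0, mul_comm]
  have hexp0 : 0 ≤ Real.exp t := (Real.exp_pos t).le
  set n : ℕ := ⌊u⌋₊ with hn
  have hn1 : 1 ≤ n := by rw [hn]; exact Nat.le_floor (by simpa using hu1)
  have hnu : (n : ℝ) ≤ u := Nat.floor_le (by linarith)
  have hnu2 : u < n + 1 := Nat.lt_floor_add_one u
  have hfr : Int.fract u = u - n := by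
    have h1 : ⌊u⌋ = (n : ℤ) := by
      rw [Int.floor_eq_iff]
      exact ⟨by exact_mod_cast hnu, by exact_mod_cast hnu2⟩
    rw [Int.fract, h1]
    simp
  have hinner : ∀ c : ℕ, 1 ≤ c → ((p ^ c ≤ ⌊Real.exp t⌋₊ ∧ ⌊Real.exp t⌋₊ < p ^ c + p ^ (c - 1)) ↔
      ((c : ℝ) ≤ u ∧ u - c < mp p)) := by
    intro c hc
    have h1 : p ^ c ≤ ⌊Real.exp t⌋₊ ↔ (c : ℝ) ≤ u := by
      rw [Nat.le_floor_iff hexp0]
      push_cast
      rw [hexp, ← Real.rpow_natCast, Real.rpow_le_rpow_left_iff hp1]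
    have h2 : ⌊Real.exp t⌋₊ < p ^ c + p ^ (c - 1) ↔ u - c < mp p := by
      rw [Nat.floor_lt hexp0]
      push_cast
      have h3 : (p : ℝ) ^ c + (p : ℝ) ^ (c - 1) = Real.exp (c * Real.log p + Real.log (1 + 1 / p)) := by
        rw [Real.exp_add, Real.exp_log (by positivity), mul_comm (c : ℝ), ← Real.rpow_def_of_pos hp0,
          Real.rpow_natCast]
        obtain ⟨d, rfl⟩ : ∃ d, c = d + 1 := ⟨c - 1, by omega⟩
        simp only [Nat.add_sub_cancel]
        rw [pow_succ]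
        field_simp
      rw [h3, Real.exp_lt_exp, mp, lt_div_iff₀ hl, htu]
      constructor <;> intro h <;> nlinarith
    rw [h1, h2]
  unfold Dp
  rw [hfr]
  have hmp1 : mp p ≤ 1 := by
    rw [mp, div_le_one hl]
    apply Real.log_le_log (by positivity)
    have h2 : (2 : ℝ) ≤ p := by exact_mod_cast hp.two_le
    have : 1 / (p : ℝ) ≤ 1 := by rw [div_le_one hp0]; linarith
    linarith
  constructor
  · rintro ⟨c, hc, h⟩
    obtain ⟨h1, h2⟩ := (hinner c hc).1 h
    have h3 : c = n := by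
      rw [hn]
      symm
      rw [Nat.floor_eq_iff (by linarith)]
      exact ⟨h1, by linarith⟩
    rw [← h3]
    exact h2
  · intro h
    exact ⟨n, hn1, (hinner n hn1).2 ⟨hnu, h⟩⟩

/-- DBS -/
theorem dbs (hF : S_FIN) (hT : S_TRA) (hP : S_PER) : S_DBS := by
  classical
  intro S hS d hd
  obtain ⟨⟨hm, hb⟩, -, -⟩ := hF S hS
  refine hT (BS S) (GS S) (∑ p ∈ S, Real.log p + 0) d hm hb ?_ hd
  intro t ht
  have hlog : ∀ p ∈ S, Real.log p ≤ t := by
    intro p hp
    have h1 : Real.log p ≤ ∑ p ∈ S, Real.log (p : ℕ) :=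
      Finset.single_le_sum (f := fun p : ℕ => Real.log p)
        (fun q hq => Real.log_nonneg (by exact_mod_cast (hS q hq).one_le)) hp
    linarith
  have ht0 : 0 ≤ t := by
    have : 0 ≤ ∑ p ∈ S, Real.log (p : ℕ) :=
      Finset.sum_nonneg fun q hq => Real.log_nonneg (by exact_mod_cast (hS q hq).one_le)
    linarith
  have hone : 1 ≤ ⌊Real.exp t⌋₊ := by
    rw [Nat.one_le_floor_iff]
    exact Real.one_le_exp ht0
  unfold GS per
  by_cases h : ⌊Real.exp t⌋₊ ∈ BS S
  · rw [if_pos h]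
    refine Finset.prod_eq_one fun p hp => ?_
    have h1 := h.2 p hp
    rw [hP p t (hS p hp) (hlog p hp)] at h1
    rw [if_neg h1]
    simp
  · rw [if_neg h]
    have h1 : ∃ p ∈ S, Dp p ⌊Real.exp t⌋₊ := by
      by_contra hc
      push_neg at hc
      exact h ⟨hone, hc⟩
    obtain ⟨p, hp, h2⟩ := h1
    rw [hP p t (hS p hp) (hlog p hp)] at h2
    refine Finset.prod_eq_zero hp ?_
    rw [if_pos h2]
    simp

end Pool.Agent.H39.WC
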